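import Pool.Agent.R489.HB.Stm

/-! Piece HB-LD4. -/

set_option autoImplicit false

namespace Pool.Agent.R983.HB

open Finset Pool.Agent.R489.HB

variable {W : Type} [DecidableEq W]

/-! ### vectors -/

theorem vec_off {T : Finset W} {a : W → Fin 3} {i : Fin 3} {e : Finset W} {x : W} (h : x ∉ e) :
    vec T a i e x = 0 := by
  unfold vec
  rw [if_neg (fun h' => h h'.1)]

theorem vec_sub {T : Finset W} {a : W → Fin 3} {i : Fin 3} {e : Finset W} (h : e ⊆ T) :
    vec T a i e = 0 := by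
  funext x
  unfold vec
  rw [if_neg (fun h' => h'.2.1 (h h'.1))]
  rfl

theorem vec_v {T : Finset W} {a : W → Fin 3} {i : Fin 3} {v x : W} (hv : v ∉ T) (hx : a x ≠ i) :
    vec T a i {v, x} v ≠ 0 := by
  unfold vec
  rw [if_pos]
  · exact one_ne_zero
  · refine ⟨Finset.mem_insert_self _ _, hv, ?_⟩
    by_cases h : a v = i
    · exact Or.inr ⟨h, x, by simp, hx⟩
    · refine Or.inl fun y hy => ?_
      rw [Finset.mem_insert, Finset.mem_singleton] at hy
      rcases hy with rfl | rfl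
      · exact h
      · exact hx

/-- one end in class `i` -/
theorem vec_one {T : Finset W} {a : W → Fin 3} {i : Fin 3} {x y : W} (hx : a x ≠ i) (hy : a y = i) :
    vec T a i {x, y} = fun t => if t = y ∧ y ∉ T then 1 else 0 := by
  funext t
  unfold vec
  by_cases h : t = y ∧ y ∉ T
  · rw [if_pos h, if_pos]
    obtain ⟨rfl, h2⟩ := h
    exact ⟨by simp, h2, Or.inr ⟨hy, x, by simp, hx⟩⟩
  · rw [if_neg h, if_neg]
    rintro ⟨h1, h2, h3⟩
    rw [Finset.mem_insert, Finset.mem_singleton] at h1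
    rcases h3 with h3 | ⟨h3, -⟩
    · exact h3 y (by simp) hy
    · rcases h1 with rfl | rfl
      · exact hx h3
      · exact h ⟨rfl, h2⟩

/-- no end in class `i` -/
theorem vec_two {T : Finset W} {a : W → Fin 3} {i : Fin 3} {x y : W} (hx : a x ≠ i) (hy : a y ≠ i)
    (t : W) : vec T a i {x, y} t = if (t = x ∨ t = y) ∧ t ∉ T then 1 else 0 := by
  unfold vec
  by_cases h : (t = x ∨ t = y) ∧ t ∉ T
  · rw [if_pos h, if_pos]
    refine ⟨by rw [Finset.mem_insert, Finset.mem_singleton]; exact h.1, h.2, Or.inl ?_⟩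
    intro s hs
    rw [Finset.mem_insert, Finset.mem_singleton] at hs
    rcases hs with rfl | rfl
    · exact hx
    · exact hy
  · rw [if_neg h, if_neg]
    rintro ⟨h1, h2, -⟩
    rw [Finset.mem_insert, Finset.mem_singleton] at h1
    exact h ⟨h1, h2⟩

theorem vec_add {T : Finset W} {a : W → Fin 3} {i : Fin 3} {x y y' : W} (hx : a x ≠ i)
    (hy : a y ≠ i) (hy' : a y' ≠ i) (h1 : x ≠ y) (h2 : x ≠ y') (h3 : y ≠ y') :
    vec T a i {x, y} + vec T a i {x, y'} = vec T a i {y, y'} := by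
  funext t
  rw [Pi.add_apply, vec_two hx hy, vec_two hx hy', vec_two hy hy']
  by_cases ht : t ∈ T
  · rw [if_neg (fun h => h.2 ht), if_neg (fun h => h.2 ht), if_neg (fun h => h.2 ht), add_zero]
  · by_cases e1 : t = x
    · subst e1
      rw [if_pos ⟨Or.inl rfl, ht⟩, if_pos ⟨Or.inl rfl, ht⟩, if_neg]
      · exact CharTwo.add_self_eq_zero 1
      · rintro ⟨h | h, -⟩
        · exact h1 h
        · exact h2 h
    · by_cases e2 : t = y
      · subst e2
        rw [if_pos ⟨Or.inr rfl, ht⟩, if_neg, if_pos ⟨Or.inl rfl, ht⟩, add_zero]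
        rintro ⟨h | h, -⟩
        · exact e1 h
        · exact h3 h
      · by_cases e3 : t = y'
        · subst e3
          rw [if_neg, if_pos ⟨Or.inr rfl, ht⟩, if_pos ⟨Or.inr rfl, ht⟩, zero_add]
          rintro ⟨h | h, -⟩
          · exact e1 h
          · exact e2 h
        · rw [if_neg, if_neg, if_neg, add_zero]
          · rintro ⟨h | h, -⟩
            · exact e2 h
            · exact e3 h
          · rintro ⟨h | h, -⟩
            · exact e1 h
            · exact e3 h
          · rintro ⟨h | h, -⟩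
            · exact e1 h
            · exact e2 h

/-! ### independence -/

section Ind

variable {f : Finset W → W → ZMod 2} {S : Set (Finset W)} {v : W}

theorem span_v (h0 : ∀ e ∈ S, f e v = 0) {x : W → ZMod 2}
    (hx : x ∈ Submodule.span (ZMod 2) (f '' S)) : x v = 0 := by
  have h1 : Submodule.span (ZMod 2) (f '' S) ≤
      LinearMap.ker (LinearMap.proj v : (W → ZMod 2) →ₗ[ZMod 2] ZMod 2) := by
    rw [Submodule.span_le]
    rintro _ ⟨e, he, rfl⟩
    exact h0 e he
  exact h1 hx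

theorem ins_v (hS : LinearIndepOn (ZMod 2) f S) (h0 : ∀ e ∈ S, f e v = 0) {g : Finset W}
    (hg : f g v ≠ 0) : LinearIndepOn (ZMod 2) f (insert g S) := by
  have h1 : g ∉ S := fun h => hg (h0 g h)
  exact (linearIndepOn_insert h1).2 ⟨hS, fun h => hg (span_v h0 h)⟩

theorem ins_same (hS : LinearIndepOn (ZMod 2) f S) {e g : Finset W} (he : e ∈ S) (hg : g ∉ S)
    (hfg : f g = f e) : LinearIndepOn (ZMod 2) f (insert g (S \ {e})) := by
  have h1 : insert e (S \ {e}) = S := by
    rw [Set.insert_sdiff_singleton, Set.insert_eq_of_mem he]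
  have h2 : e ∉ S \ {e} := fun h => h.2 rfl
  have h3 := hS
  rw [← h1, linearIndepOn_insert h2] at h3
  exact (linearIndepOn_insert (fun h => hg h.1)).2 ⟨h3.1, by rw [hfg]; exact h3.2⟩

/-- two edges at `v` instead of one edge -/
theorem ins_two {e p q : Finset W} (he : e ∉ S) (hS : LinearIndepOn (ZMod 2) f (insert e S))
    (h0 : ∀ e ∈ S, f e v = 0) (hp : f p v ≠ 0) (hq : f q v ≠ 0) (hpq : p ≠ q)
    (hs : f p + f q = f e) : LinearIndepOn (ZMod 2) f (insert q (insert p S)) := by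
  obtain ⟨h1, h2⟩ := (linearIndepOn_insert he).1 hS
  have h3 := ins_v h1 h0 hp
  have h4 : q ∉ insert p S := by
    rintro (h | h)
    · exact hpq h.symm
    · exact hq (h0 q h)
  refine (linearIndepOn_insert h4).2 ⟨h3, fun h5 => ?_⟩
  rw [Set.image_insert_eq, Submodule.mem_span_insert] at h5
  obtain ⟨k, z, hz, h6⟩ := h5
  have h7 : ∀ k : ZMod 2, k = 0 ∨ k = 1 := by decide
  have h7 := h7 k
  rcases h7 with rfl | rfl
  · rw [zero_smul, zero_add] at h6
    rw [h6] at hq
    exact hq (span_v h0 hz)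
  · rw [one_smul] at h6
    apply h2
    have h8 : f e = z := by
      rw [← hs, h6, ← add_assoc]
      have h9 : f p + f p = 0 := by
        funext x
        exact CharTwo.add_self_eq_zero (f p x)
      rw [h9, zero_add]
    rw [h8]
    exact hz

end Ind

/-! ### the recolouring -/

/-- the conclusion -/
def Cc (T : Finset W) (a : W → Fin 3) (In : Set (Finset W)) (v y1 y2 z1 z2 : W) : Prop :=
  ∃ c : Finset W → Fin 3, ∀ i, LinearIndepOn (ZMod 2) (vec T a i)
    {e | (e ∈ In ∨ e = {v, y1} ∨ e = {v, y2} ∨ e = {v, z1} ∨ e = {v, z2}) ∧ c e = i}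

theorem Cc.swap {T : Finset W} {a : W → Fin 3} {In : Set (Finset W)} {v y1 y2 z1 z2 : W}
    (h : Cc T a In v y1 y2 z1 z2) : Cc T a In v y2 y1 z1 z2 := by
  obtain ⟨c, hc⟩ := h
  refine ⟨c, fun i => (hc i).mono ?_⟩
  rintro e ⟨h1 | h1 | h1 | h1, h2⟩
  · exact ⟨Or.inl h1, h2⟩
  · exact ⟨Or.inr (Or.inr (Or.inl h1)), h2⟩
  · exact ⟨Or.inr (Or.inl h1), h2⟩
  · exact ⟨Or.inr (Or.inr (Or.inr h1)), h2⟩

theorem Cc.mk' {T : Finset W} {a : W → Fin 3} {In : Set (Finset W)} {v y1 y2 z1 z2 : W}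
    (k1 k2 k3 k4 : Fin 3) (c : Finset W → Fin 3)
    (h : ∀ i, LinearIndepOn (ZMod 2) (vec T a i) ({e | e ∈ In ∧ c e = i} ∪
      {e | (e = {v, y1} ∧ k1 = i) ∨ (e = {v, y2} ∧ k2 = i) ∨ (e = {v, z1} ∧ k3 = i) ∨
        (e = {v, z2} ∧ k4 = i)})) : Cc T a In v y1 y2 z1 z2 := by
  refine ⟨fun e => if e = {v, y1} then k1 else if e = {v, y2} then k2 else
    if e = {v, z1} then k3 else if e = {v, z2} then k4 else c e, fun i => (h i).mono ?_⟩
  rintro e ⟨h1, h2⟩
  beta_reduce at h2
  by_cases e1 : e = {v, y1}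
  · rw [if_pos e1] at h2
    exact Or.inr (Or.inl ⟨e1, h2⟩)
  rw [if_neg e1] at h2
  by_cases e2 : e = {v, y2}
  · rw [if_pos e2] at h2
    exact Or.inr (Or.inr (Or.inl ⟨e2, h2⟩))
  rw [if_neg e2] at h2
  by_cases e3 : e = {v, z1}
  · rw [if_pos e3] at h2
    exact Or.inr (Or.inr (Or.inr (Or.inl ⟨e3, h2⟩)))
  rw [if_neg e3] at h2
  by_cases e4 : e = {v, z2}
  · rw [if_pos e4] at h2
    exact Or.inr (Or.inr (Or.inr (Or.inr ⟨e4, h2⟩)))
  rw [if_neg e4] at h2
  rcases h1 with h1 | h1 | h1 | h1 | h1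
  · exact Or.inl ⟨h1, h2⟩
  · exact absurd h1 e1
  · exact absurd h1 e2
  · exact absurd h1 e3
  · exact absurd h1 e4

/-- the colour conditions -/
structure Cd (T : Finset W) (a : W → Fin 3) (v y1 y2 z1 z2 : W) : Prop where
  hvT : v ∉ T
  hy : y1 ≠ y2
  ay : a y1 = a y2
  az : a z1 = a z2
  vy : a v ≠ a y1
  vz : a v ≠ a z1
  yz : a y1 ≠ a z1

theorem fin3 {α β γ : Fin 3} (h1 : α ≠ β) (h2 : α ≠ γ) (h3 : β ≠ γ) (i : Fin 3) :
    i = α ∨ i = β ∨ i = γ := by
  revert α β γ i
  decide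

section Rec

variable {T : Finset W} {a : W → Fin 3} {In : Set (Finset W)} {v y1 y2 z1 z2 : W}
  {c : Finset W → Fin 3}

/-- the case that the extra edge has the colour of `z1` -/
theorem case_z (h : Cd T a v y1 y2 z1 z2) (hIn : ∀ e ∈ In, v ∉ e)
    (hB : ∀ i, LinearIndepOn (ZMod 2) (vec T a i) {e | (e ∈ In ∨ e = {y1, y2}) ∧ c e = i})
    (he0 : ({y1, y2} : Finset W) ∉ In) (hc : c {y1, y2} = a z1) : Cc T a In v y1 y2 z1 z2 := by
  have hS : ∀ i, LinearIndepOn (ZMod 2) (vec T a i) {e | e ∈ In ∧ c e = i} := fun i =>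
    (hB i).mono fun e he => ⟨Or.inl he.1, he.2⟩
  have h0 : ∀ i, ∀ e ∈ {e | e ∈ In ∧ c e = i}, vec T a i e v = 0 := fun i e he =>
    vec_off (hIn e he.1)
  refine Cc.mk' (a z1) (a z1) (a v) (a y1) c fun i => ?_
  rcases fin3 h.vy h.vz h.yz i with rfl | rfl | rfl
  · refine (ins_v (g := {v, z1}) (hS _) (h0 _) (vec_v h.hvT h.vz.symm)).mono ?_
    rintro e (he | he | he | he | he)
    · exact Or.inr he
    · exact absurd he.2 h.vz.symm
    · exact absurd he.2 h.vz.symm
    · exact Or.inl he.1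
    · exact absurd he.2 h.vy.symm
  · refine (ins_v (g := {v, z2}) (hS _) (h0 _) (vec_v h.hvT (by
      rw [← h.az]
      exact h.yz.symm))).mono ?_
    rintro e (he | he | he | he | he)
    · exact Or.inr he
    · exact absurd he.2 h.yz.symm
    · exact absurd he.2 h.yz.symm
    · exact absurd he.2 h.vy
    · exact Or.inl he.1
  · have hvy1 : v ≠ y1 := fun h' => h.vy (by rw [h'])
    have hvy2 : v ≠ y2 := fun h' => h.vy (by rw [h', h.ay])
    refine (ins_two (e := {y1, y2}) (p := {v, y1}) (q := {v, y2})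
      (S := {e | e ∈ In ∧ c e = a z1}) (v := v) (fun h' => he0 h'.1) ((hB _).mono ?_) (h0 _)
      (vec_v h.hvT h.yz) (vec_v h.hvT (by rw [← h.ay]; exact h.yz)) ?_
      (vec_add h.vz h.yz (by rw [← h.ay]; exact h.yz) hvy1 hvy2 h.hy)).mono ?_
    · rintro e (he | he)
      · rw [he]
        exact ⟨Or.inr rfl, hc⟩
      · exact ⟨Or.inl he.1, he.2⟩
    · intro h'
      have h1 : y2 ∈ ({v, y1} : Finset W) := by
        rw [h']
        simp
      rw [Finset.mem_insert, Finset.mem_singleton] at h1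
      rcases h1 with h1 | h1
      · exact hvy2 h1.symm
      · exact h.hy h1.symm
    · rintro e (he | he | he | he | he)
      · exact Or.inr (Or.inr he)
      · exact Or.inr (Or.inl he.1)
      · exact Or.inl he.1
      · exact absurd he.2 h.vz
      · exact absurd he.2 h.yz

/-- the case that the extra edge has the colour of `v`, with the edge `{z1, y1}` outside of the
span -/
theorem case_v (h : Cd T a v y1 y2 z1 z2) (hIn : ∀ e ∈ In, v ∉ e)
    (hS : ∀ i, LinearIndepOn (ZMod 2) (vec T a i) {e | e ∈ In ∧ c e = i})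
    (he1 : ({z1, y1} : Finset W) ∈ In)
    (hsp : vec T a (a v) {z1, y1} ∉
      Submodule.span (ZMod 2) (vec T a (a v) '' {e | e ∈ In ∧ c e = a v})) :
    Cc T a In v y1 y2 z1 z2 := by
  classical
  have h0 : ∀ i, ∀ e ∈ {e | e ∈ In ∧ c e = i}, vec T a i e v = 0 := fun i e he =>
    vec_off (hIn e he.1)
  have hce : c {z1, y1} ≠ a v := by
    intro h1
    exact hsp (Submodule.subset_span ⟨_, ⟨he1, h1⟩, rfl⟩)
  have hα : LinearIndepOn (ZMod 2) (vec T a (a v)) (insert {z1, y1} {e | e ∈ In ∧ c e = a v}) :=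
    (linearIndepOn_insert (fun h' => hce h'.2)).2 ⟨hS _, hsp⟩
  have hα0 : ∀ e ∈ insert {z1, y1} {e | e ∈ In ∧ c e = a v}, vec T a (a v) e v = 0 := by
    rintro e (he | he)
    · rw [he]
      exact vec_off (hIn _ he1)
    · exact h0 _ e he
  have hvIn : ∀ x, ({v, x} : Finset W) ∉ In := fun x hx => hIn _ hx (Finset.mem_insert_self _ _)
  obtain ⟨c'', hc''⟩ : ∃ c'' : Finset W → Fin 3, ∀ e, c'' e = if e = {z1, y1} then a v else c e :=
    ⟨_, fun _ => rfl⟩
  have hc1 : ∀ e i, c'' e = i → i ≠ a v → e ≠ {z1, y1} ∧ c e = i := by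
    intro e i he hi
    rw [hc''] at he
    by_cases h1 : e = {z1, y1}
    · rw [if_pos h1] at he
      exact absurd he.symm hi
    · rw [if_neg h1] at he
      exact ⟨h1, he⟩
  have hc2 : ∀ e, c'' e = a v → e = {z1, y1} ∨ c e = a v := by
    intro e he
    rw [hc''] at he
    by_cases h1 : e = {z1, y1}
    · exact Or.inl h1
    · rw [if_neg h1] at he
      exact Or.inr he
  rcases fin3 h.vy h.vz h.yz (c {z1, y1}) with h1 | h1 | h1
  · exact absurd h1 hce
  · -- colour of `y1`
    refine Cc.mk' (a y1) (a z1) (a v) (a y1) c'' fun i => ?_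
    rcases fin3 h.vy h.vz h.yz i with rfl | rfl | rfl
    · refine (ins_v (g := {v, z1}) hα hα0 (vec_v h.hvT h.vz.symm)).mono ?_
      rintro e (he | he | he | he | he)
      · rcases hc2 e he.2 with h2 | h2
        · exact Or.inr (Or.inl h2)
        · exact Or.inr (Or.inr ⟨he.1, h2⟩)
      · exact absurd he.2 h.vy.symm
      · exact absurd he.2 h.vz.symm
      · exact Or.inl he.1
      · exact absurd he.2 h.vy.symm
    · have h3 := ins_same (f := vec T a (a y1)) (g := {v, y1}) (hS (a y1))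
        (e := {z1, y1}) ⟨he1, h1⟩ (fun h' => hvIn _ h'.1) (by
          rw [vec_one h.vy rfl, vec_one h.yz.symm rfl])
      refine (ins_v (v := v) (g := {v, z2}) h3 ?_ (vec_v h.hvT (by
        rw [← h.az]
        exact h.yz.symm))).mono ?_
      · rintro e (he | he)
        · rw [he, vec_one h.vy rfl]
          beta_reduce
          rw [if_neg]
          rintro ⟨h4, -⟩
          exact h.vy (by rw [h4])
        · exact h0 _ e he.1
      · rintro e (he | he | he | he | he)
        · obtain ⟨h4, h5⟩ := hc1 e _ he.2 h.vy.symm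
          exact Or.inr (Or.inr ⟨⟨he.1, h5⟩, h4⟩)
        · exact Or.inr (Or.inl he.1)
        · exact absurd he.2 h.yz.symm
        · exact absurd he.2 h.vy
        · exact Or.inl he.1
    · refine (ins_v (v := v) (g := {v, y2}) (hS _) (h0 _) (vec_v h.hvT (by
        rw [← h.ay]
        exact h.yz))).mono ?_
      rintro e (he | he | he | he | he)
      · exact Or.inr ⟨he.1, (hc1 e _ he.2 h.vz.symm).2⟩
      · exact absurd he.2 h.yz
      · exact Or.inl he.1
      · exact absurd he.2 h.vz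
      · exact absurd he.2 h.yz
  · -- colour of `z1`
    refine Cc.mk' (a z1) (a v) (a z1) (a y1) c'' fun i => ?_
    rcases fin3 h.vy h.vz h.yz i with rfl | rfl | rfl
    · refine (ins_v (g := {v, y2}) hα hα0 (vec_v h.hvT (by
        rw [← h.ay]
        exact h.vy.symm))).mono ?_
      rintro e (he | he | he | he | he)
      · rcases hc2 e he.2 with h2 | h2
        · exact Or.inr (Or.inl h2)
        · exact Or.inr (Or.inr ⟨he.1, h2⟩)
      · exact absurd he.2 h.vz.symm
      · exact Or.inl he.1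
      · exact absurd he.2 h.vz.symm
      · exact absurd he.2 h.vy.symm
    · refine (ins_v (v := v) (g := {v, z2}) (hS _) (h0 _) (vec_v h.hvT (by
        rw [← h.az]
        exact h.yz.symm))).mono ?_
      rintro e (he | he | he | he | he)
      · exact Or.inr ⟨he.1, (hc1 e _ he.2 h.vy.symm).2⟩
      · exact absurd he.2 h.yz.symm
      · exact absurd he.2 h.vy
      · exact absurd he.2 h.yz.symm
      · exact Or.inl he.1
    · have h3 := ins_same (f := vec T a (a z1)) (g := {v, z1}) (hS (a z1))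
        (e := {z1, y1}) ⟨he1, h1⟩ (fun h' => hvIn _ h'.1) (by
          rw [Finset.pair_comm z1 y1, vec_one h.vz rfl, vec_one h.yz rfl])
      refine (ins_v (v := v) (g := {v, y1}) h3 ?_ (vec_v h.hvT h.yz)).mono ?_
      · rintro e (he | he)
        · rw [he, vec_one h.vz rfl]
          beta_reduce
          rw [if_neg]
          rintro ⟨h4, -⟩
          exact h.vz (by rw [h4])
        · exact h0 _ e he.1
      · rintro e (he | he | he | he | he)
        · obtain ⟨h4, h5⟩ := hc1 e _ he.2 h.vz.symm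
          exact Or.inr (Or.inr ⟨⟨he.1, h5⟩, h4⟩)
        · exact Or.inl he.1
        · exact absurd he.2 h.vz
        · exact Or.inr (Or.inl he.1)
        · exact absurd he.2 h.yz

/-- all cases -/
theorem all_cases (h : Cd T a v y1 y2 z1 z2) (hIn : ∀ e ∈ In, v ∉ e)
    (hB : ∀ i, LinearIndepOn (ZMod 2) (vec T a i) {e | (e ∈ In ∨ e = {y1, y2}) ∧ c e = i})
    (he0 : ({y1, y2} : Finset W) ∉ In) (h1 : ({z1, y1} : Finset W) ∈ In ∨ {z1, y1} ⊆ T)
    (h2 : ({z1, y2} : Finset W) ∈ In ∨ {z1, y2} ⊆ T) : Cc T a In v y1 y2 z1 z2 := by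
  have hS : ∀ i, LinearIndepOn (ZMod 2) (vec T a i) {e | e ∈ In ∧ c e = i} := fun i =>
    (hB i).mono fun e he => ⟨Or.inl he.1, he.2⟩
  rcases fin3 h.vy h.vz h.yz (c {y1, y2}) with h3 | h3 | h3
  · have h4 : LinearIndepOn (ZMod 2) (vec T a (a v))
        (insert {y1, y2} {e | e ∈ In ∧ c e = a v}) := by
      refine (hB _).mono ?_
      rintro e (he | he)
      · rw [he]
        exact ⟨Or.inr rfl, h3⟩
      · exact ⟨Or.inl he.1, he.2⟩
    have h5 := ((linearIndepOn_insert (fun h' => he0 h'.1)).1 h4).2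
    have hzy1 : z1 ≠ y1 := fun h' => h.yz (by rw [h'])
    have hzy2 : z1 ≠ y2 := fun h' => h.yz (by rw [h.ay, h'])
    have h6 : vec T a (a v) {z1, y1} + vec T a (a v) {z1, y2} = vec T a (a v) {y1, y2} :=
      vec_add h.vz.symm h.vy.symm (by rw [← h.ay]; exact h.vy.symm) hzy1 hzy2 h.hy
    by_cases h7 : vec T a (a v) {z1, y1} ∈
        Submodule.span (ZMod 2) (vec T a (a v) '' {e | e ∈ In ∧ c e = a v})
    · have h8 : vec T a (a v) {z1, y2} ∉
          Submodule.span (ZMod 2) (vec T a (a v) '' {e | e ∈ In ∧ c e = a v}) := by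
        intro h8
        apply h5
        rw [← h6]
        exact Submodule.add_mem _ h7 h8
      refine Cc.swap (case_v (c := c) (y1 := y2) (y2 := y1) ⟨h.hvT, h.hy.symm, h.ay.symm, h.az,
        by rw [← h.ay]; exact h.vy, h.vz, by rw [← h.ay]; exact h.yz⟩ hIn hS ?_ h8)
      rcases h2 with h9 | h9
      · exact h9
      · exact absurd (by rw [vec_sub h9]; exact Submodule.zero_mem _) h8
    · refine case_v (c := c) h hIn hS ?_ h7
      rcases h1 with h9 | h9
      · exact h9
      · exact absurd (by rw [vec_sub h9]; exact Submodule.zero_mem _) h7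
  · -- impossible
    exfalso
    have h4 : vec T a (a y1) {y1, y2} = 0 := by
      funext x
      unfold vec
      rw [if_neg]
      · rfl
      rintro ⟨-, -, h5 | ⟨-, y, hy, h5⟩⟩
      · exact h5 y1 (by simp) rfl
      · rw [Finset.mem_insert, Finset.mem_singleton] at hy
        rcases hy with rfl | rfl
        · exact h5 rfl
        · exact h5 h.ay.symm
    have h5 : ({y1, y2} : Finset W) ∈ {e | (e ∈ In ∨ e = {y1, y2}) ∧ c e = a y1} :=
      ⟨Or.inr rfl, h3⟩
    exact (hB (a y1)).ne_zero h5 h4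
  · exact case_z h hIn hB he0 h3

end Rec

/-! ### the edges -/

theorem mem_edg {Φ : Finset (Finset W)} {e : Finset W} :
    e ∈ edg Φ ↔ ∃ f ∈ Φ, e ⊆ f ∧ e.card = 2 := by
  unfold edg
  simp only [Finset.mem_biUnion, Finset.mem_powersetCard]

theorem mem_fc {Φ : Finset (Finset W)} {e f : Finset W} : f ∈ fc Φ e ↔ f ∈ Φ ∧ e ⊆ f := by
  unfold fc
  rw [Finset.mem_filter]

theorem pair_of {e : Finset W} {v x y : W} (hv : v ∈ e) (hc : e.card = 2)
    (hs : e ⊆ {v, x, y}) : e = {v, x} ∨ e = {v, y} := by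
  obtain ⟨p, q, hpq, rfl⟩ := Finset.card_eq_two.1 hc
  rw [Finset.mem_insert, Finset.mem_singleton] at hv
  have hp : p ∈ ({v, x, y} : Finset W) := hs (by simp)
  have hq : q ∈ ({v, x, y} : Finset W) := hs (by simp)
  simp only [Finset.mem_insert, Finset.mem_singleton] at hp hq
  rcases hv with rfl | rfl
  · rcases hq with rfl | rfl | rfl
    · exact absurd rfl hpq
    · exact Or.inl rfl
    · exact Or.inr rfl
  · rcases hp with rfl | rfl | rfl
    · exact absurd rfl hpq
    · exact Or.inl (Finset.pair_comm _ _)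
    · exact Or.inr (Finset.pair_comm _ _)

theorem LD4 (hC : S_CONE) : S_LD4 := by
  intro W _ Φ T a v y1 y2 z1 z2 hTri hT h5 hD hRD
  have vy1 : v ≠ y1 := fun h => hD.vy (by rw [h])
  have vy2 : v ≠ y2 := fun h => hD.vy (by rw [hD.ay, ← h])
  have vz1 : v ≠ z1 := fun h => hD.vz (by rw [h])
  have yz1 : y1 ≠ z1 := fun h => hD.yz (by rw [h])
  have yz2 : y2 ≠ z1 := fun h => hD.yz (by rw [hD.ay, h])
  have f11 : ({v, y1, z1} : Finset W) ∈ Φ := (mem_fc.1 (by rw [hD.faces]; simp)).1
  have f12 : ({v, y1, z2} : Finset W) ∈ Φ :=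
    (mem_fc.1 (show ({v, y1, z2} : Finset W) ∈ fc Φ {v} by rw [hD.faces]; simp)).1
  have f21 : ({v, y2, z1} : Finset W) ∈ Φ :=
    (mem_fc.1 (show ({v, y2, z1} : Finset W) ∈ fc Φ {v} by rw [hD.faces]; simp)).1
  have edge_v : ∀ e ∈ edg Φ, v ∈ e →
      e = {v, y1} ∨ e = {v, y2} ∨ e = {v, z1} ∨ e = {v, z2} := by
    intro e he hv
    obtain ⟨f, hf, hef, hc⟩ := mem_edg.1 he
    have h1 : f ∈ fc Φ {v} := mem_fc.2 ⟨hf, Finset.singleton_subset_iff.2 (hef hv)⟩
    rw [hD.faces] at h1
    simp only [Finset.mem_insert, Finset.mem_singleton] at h1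
    rcases h1 with rfl | rfl | rfl | rfl
    · rcases pair_of hv hc hef with h | h
      · exact Or.inl h
      · exact Or.inr (Or.inr (Or.inl h))
    · rcases pair_of hv hc hef with h | h
      · exact Or.inl h
      · exact Or.inr (Or.inr (Or.inr h))
    · rcases pair_of hv hc hef with h | h
      · exact Or.inr (Or.inl h)
      · exact Or.inr (Or.inr (Or.inl h))
    · rcases pair_of hv hc hef with h | h
      · exact Or.inr (Or.inl h)
      · exact Or.inr (Or.inr (Or.inr h))
  have hvy1 : ({y1, v} : Finset W) ∈ edg Φ := by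
    refine mem_edg.2 ⟨_, f11, ?_, Finset.card_pair vy1.symm⟩
    intro x hx
    simp only [Finset.mem_insert, Finset.mem_singleton] at hx ⊢
    rcases hx with h | h
    · exact Or.inr (Or.inl h)
    · exact Or.inl h
  have hvy2 : ({v, y2} : Finset W) ∈ edg Φ := by
    refine mem_edg.2 ⟨_, f21, ?_, Finset.card_pair vy2⟩
    intro x hx
    simp only [Finset.mem_insert, Finset.mem_singleton] at hx ⊢
    rcases hx with h | h
    · exact Or.inl h
    · exact Or.inr (Or.inl h)
  have hz11 : ({z1, y1} : Finset W) ∈ edg Φ := by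
    refine mem_edg.2 ⟨_, f11, ?_, Finset.card_pair yz1.symm⟩
    intro x hx
    simp only [Finset.mem_insert, Finset.mem_singleton] at hx ⊢
    rcases hx with h | h
    · exact Or.inr (Or.inr h)
    · exact Or.inr (Or.inl h)
  have hz12 : ({z1, y2} : Finset W) ∈ edg Φ := by
    refine mem_edg.2 ⟨_, f21, ?_, Finset.card_pair yz2.symm⟩
    intro x hx
    simp only [Finset.mem_insert, Finset.mem_singleton] at hx ⊢
    rcases hx with h | h
    · exact Or.inr (Or.inr h)
    · exact Or.inr (Or.inl h)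
  have hgood : Good Φ y1 v := by
    intro w hw1 hwv he1 he2
    have hw : w ∈ ({v, w} : Finset W) := by simp
    rcases edge_v _ he2 (Finset.mem_insert_self _ _) with h | h | h | h
    · rw [h, Finset.mem_insert, Finset.mem_singleton] at hw
      rcases hw with h' | h'
      · exact absurd h' hwv
      · exact absurd h' hw1
    · rw [h, Finset.mem_insert, Finset.mem_singleton] at hw
      rcases hw with h' | h'
      · exact absurd h' hwv
      · rw [h'] at he1
        exact absurd he1 hD.non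
    · rw [h, Finset.mem_insert, Finset.mem_singleton] at hw
      rcases hw with h' | h'
      · exact absurd h' hwv
      · rw [h', Finset.insert_comm]
        exact f11
    · rw [h, Finset.mem_insert, Finset.mem_singleton] at hw
      rcases hw with h' | h'
      · exact absurd h' hwv
      · rw [h', Finset.insert_comm]
        exact f12
  obtain ⟨-, hedg⟩ := hC W Φ y1 v hTri vy1.symm hvy1 hgood h5
  have hnT : ¬ ({y1, y2} : Finset W) ⊆ T := fun h =>
    hD.non (mem_edg.2 ⟨T, hT, h, Finset.card_pair hD.hy⟩)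
  have hmem : ∀ e : Finset W, ((e ∈ edg Φ ∧ v ∉ e ∧ ¬ e ⊆ T) ∨ e = {y1, y2}) →
      e ∈ edg (contr y1 v Φ) ∧ ¬ e ⊆ T := by
    rintro e (⟨h1, h2, h3⟩ | rfl)
    · refine ⟨?_, h3⟩
      rw [hedg, Finset.mem_image]
      refine ⟨e, Finset.mem_erase.2 ⟨fun h => h2 (by rw [h]; simp), h1⟩, ?_⟩
      unfold mv
      rw [if_neg h2]
    · refine ⟨?_, hnT⟩
      rw [hedg, Finset.mem_image]
      refine ⟨{v, y2}, Finset.mem_erase.2 ⟨fun h => ?_, hvy2⟩, ?_⟩
      · have h1 : y2 ∈ ({y1, v} : Finset W) := by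
          rw [← h]
          simp
        rw [Finset.mem_insert, Finset.mem_singleton] at h1
        rcases h1 with h1 | h1
        · exact hD.hy h1.symm
        · exact vy2 h1.symm
      · unfold mv
        rw [if_pos (Finset.mem_insert_self _ _), Finset.erase_insert (by
          rw [Finset.mem_singleton]; exact vy2)]
  obtain ⟨c', hc'⟩ := hRD
  have hv1 : v ∉ ({z1, y1} : Finset W) := by
    rw [Finset.mem_insert, Finset.mem_singleton]
    exact not_or.2 ⟨vz1, vy1⟩
  have hv2 : v ∉ ({z1, y2} : Finset W) := by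
    rw [Finset.mem_insert, Finset.mem_singleton]
    exact not_or.2 ⟨vz1, vy2⟩
  obtain ⟨c, hc⟩ := all_cases (T := T) (a := a) (In := {e | e ∈ edg Φ ∧ v ∉ e ∧ ¬ e ⊆ T})
    (v := v) (y1 := y1) (y2 := y2) (z1 := z1) (z2 := z2) (c := c')
    ⟨hD.hvT, hD.hy, hD.ay, hD.az, hD.vy, hD.vz, hD.yz⟩ (fun e he => he.2.1)
    (fun i => (hc' i).mono (by
      rintro e ⟨h1, h2⟩
      obtain ⟨h3, h4⟩ := hmem e h1
      exact ⟨h3, h4, h2⟩)) (fun h => hD.non h.1)
    (by
      by_cases h : ({z1, y1} : Finset W) ⊆ T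
      · exact Or.inr h
      · exact Or.inl ⟨hz11, hv1, h⟩)
    (by
      by_cases h : ({z1, y2} : Finset W) ⊆ T
      · exact Or.inr h
      · exact Or.inl ⟨hz12, hv2, h⟩)
  refine ⟨c, fun i => (hc i).mono ?_⟩
  rintro e ⟨h1, h2, h3⟩
  refine ⟨?_, h3⟩
  by_cases hv : v ∈ e
  · exact Or.inr (edge_v e h1 hv)
  · exact Or.inl ⟨h1, hv, h2⟩

end Pool.Agent.R983.HB
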